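import Mathlib
import Pool.Agent.Helper49.SL.Reduct4
import Pool.Agent.Helper49.SL.FreeLie
import Pool.Agent.Helper22.LB.Final

/-!
# The least degree of a Lie identity of `sl_3` is `8`

For every field `K` of characteristic `0` the Lie algebra `sl_3(K)` satisfies a Lie identity of
degree `8` and no Lie identity of degree at most `7`: `m_3 = 8`.
-/

namespace Pool.Agent.Results.MP_a9fd20_al.ExactThree

/-- `LieMonomial K d f`: the element `f` of the free Lie algebra on `x_0, x_1, …` is an iterated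
bracket (in any arrangement) of exactly `d` generators. -/
inductive LieMonomial (K : Type*) [Field K] : ℕ → FreeLieAlgebra K ℕ → Prop
  | of (i : ℕ) : LieMonomial K 1 (FreeLieAlgebra.of K i)
  | bracket {p q : ℕ} {f g : FreeLieAlgebra K ℕ} :
      LieMonomial K p f → LieMonomial K q g → LieMonomial K (p + q) ⁅f, g⁆

/-- The Lie polynomials of degree at most `d`. -/
noncomputable def degreeLE (K : Type*) [Field K] (d : ℕ) : Submodule K (FreeLieAlgebra K ℕ) :=
  Submodule.span K {f | ∃ e ≤ d, LieMonomial K e f}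

/-- `f` is a Lie identity of the Lie algebra `L`: it is nonzero and it vanishes under every
substitution of elements of `L` for the generators. -/
def IsLieIdentity (K : Type*) [Field K] (L : Type*) [LieRing L] [LieAlgebra K L]
    (f : FreeLieAlgebra K ℕ) : Prop :=
  f ≠ 0 ∧ ∀ v : ℕ → L, FreeLieAlgebra.lift K v f = 0

/-- The least degree `m_n` of a Lie identity of `sl_n(K)`. -/
noncomputable def minDegree (K : Type*) [Field K] (n : ℕ) : ℕ :=
  sInf {d | ∃ f ∈ degreeLE K d, IsLieIdentity K (LieAlgebra.SpecialLinear.sl (Fin n) K) f}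

section Aux

open Finset Pool.Agent.Helper49.SL

variable {K : Type*} [Field K]

theorem adL_mono {N : ℕ} (x : Fin N → ℕ) (y : ℕ) (l : List (Fin N)) :
    LieMonomial K (l.length + 1) (adL (fun i => FreeLieAlgebra.of K (x i)) (FreeLieAlgebra.of K y) l) := by
  induction l with
  | nil => exact LieMonomial.of y
  | cons i l ih =>
    have h := LieMonomial.bracket (LieMonomial.of (K := K) (x i)) ih
    rw [List.length_cons, show l.length + 1 + 1 = 1 + (l.length + 1) by ring]
    exact h

theorem comb_mem {V : Type*} [AddCommGroup V] [Module K V] (S : Submodule K V) (k : ℕ) (f : ℕ → V)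
    (h : ∀ p, p ≤ 4 * k + 6 → f p ∈ S) : comb k f ∈ S := by
  have hz : ∀ (c : ℤ) (v : V), v ∈ S → c • v ∈ S := fun c v hv => by
    rw [← Int.cast_smul_eq_zsmul K]; exact S.smul_mem _ hv
  rw [comb]
  refine S.add_mem (S.sub_mem (S.neg_mem ?_) ?_) ?_
  · refine hz _ _ (S.sum_mem fun p hp => hz _ _ (h _ ?_))
    have : p.1 + p.2 = 2 * (k + 1) := by simpa using hp
    omega
  · refine hz _ _ (S.sum_mem fun p hp => hz _ _ (h _ ?_))
    have : p.1 + p.2 = 2 * (k + 1) + 1 := by simpa using hp
    omega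
  · refine hz _ _ (S.sum_mem fun p hp => hz _ _ (h _ ?_))
    have : p.1 + p.2 = 2 * (k + 1) := by simpa using hp
    omega

theorem ff_mem (k : ℕ) : ff K k ∈ degreeLE K (4 * k + 8) := by
  rw [ff, ffL]
  refine Submodule.sum_mem _ fun σ _ => ?_
  rw [← Int.cast_smul_eq_zsmul K]
  refine Submodule.smul_mem _ _ (comb_mem _ k _ fun p hp => Submodule.subset_span ?_)
  have h := LieMonomial.bracket (adL_mono (K := K) (fun i : Fin (4 * k + 6) => (i : ℕ)) (4 * k + 6)
    ((List.ofFn σ).take p)) (adL_mono (K := K) (fun i : Fin (4 * k + 6) => (i : ℕ)) (4 * k + 6)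
    ((List.ofFn σ).drop p))
  have hl : (List.ofFn σ).length = 4 * k + 6 := List.length_ofFn
  have e : ((List.ofFn σ).take p).length + 1 + (((List.ofFn σ).drop p).length + 1) = 4 * k + 8 := by
    rw [List.length_take, List.length_drop, hl, min_eq_left hp]
    omega
  rw [e] at h
  exact ⟨_, le_rfl, h⟩

attribute [local instance 100] LieRing.ofAssociativeRing

theorem mono_ne {e : ℕ} {f : FreeLieAlgebra K ℕ} (h : LieMonomial K e f) : e ≠ 0 := by
  induction h with
  | of i => exact one_ne_zero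
  | bracket _ _ h1 _ => omega

theorem mono_mem {e : ℕ} {f : FreeLieAlgebra K ℕ} (h : LieMonomial K e f) :
    f ∈ RN K (FreeLieAlgebra.of K) e := by
  induction h with
  | of i => exact Submodule.subset_span ⟨[i], rfl, rfl⟩
  | bracket h1 h2 ih1 ih2 => exact RN_lie _ (mono_ne h1) (mono_ne h2) ih1 ih2

theorem degreeLE_le (d : ℕ) : degreeLE K d ≤ ⨆ r, MM K d r := by
  refine Submodule.span_le.mpr ?_
  rintro f ⟨e, he, hf⟩
  exact RN_le d e he (mono_mem hf)

theorem lower [CharZero K] {n k : ℕ} (hn : n ≠ 0) (hk : k ≠ 0)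
    (hI : Inj K (Matrix (Fin n) (Fin n) K) k)
    (f : FreeLieAlgebra K ℕ) (hf : f ∈ degreeLE K (k + 1))
    (h : IsLieIdentity K (LieAlgebra.SpecialLinear.sl (Fin n) K) f) : False := by
  refine h.1 (eq_zero_of_inj (k + 1) (fun j hj => ?_) (degreeLE_le _ hf) h.2)
  obtain ⟨k, rfl⟩ := Nat.exists_eq_succ_of_ne_zero hk
  exact inj_le (Nat.lt_succ_iff.mp hj) (inj_sl hn k hI)

theorem degreeLE_mono {d d' : ℕ} (h : d ≤ d') : degreeLE K d ≤ degreeLE K d' :=
  Submodule.span_mono fun _ hf => by
    obtain ⟨e, he, hf⟩ := hf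
    exact ⟨e, he.trans h, hf⟩

end Aux

/-- For every field `K` of characteristic `0` the least degree of a Lie identity of `sl_3(K)` is
`m_3 = 8`. -/
theorem result (K : Type*) [Field K] [CharZero K] : minDegree K 3 = 8 := by
  have hid : IsLieIdentity K (LieAlgebra.SpecialLinear.sl (Fin 3) K)
      (Pool.Agent.Helper49.SL.ff K 0) :=
    ⟨Pool.Agent.Helper49.SL.ff_ne_zero 0, fun v =>
      Pool.Agent.Helper49.SL.lift_ff_sl 0 (by simp) v⟩
  have h8 : (8 : ℕ) ∈ {d | ∃ f ∈ degreeLE K d,
      IsLieIdentity K (LieAlgebra.SpecialLinear.sl (Fin 3) K) f} :=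
    ⟨_, ff_mem 0, hid⟩
  refine le_antisymm (Nat.sInf_le h8) ?_
  by_contra hlt
  have hmem : minDegree K 3 ∈ {d | ∃ f ∈ degreeLE K d,
      IsLieIdentity K (LieAlgebra.SpecialLinear.sl (Fin 3) K) f} := Nat.sInf_mem ⟨8, h8⟩
  obtain ⟨f, hf, hid'⟩ := hmem
  exact lower (n := 3) (k := 2 * 3) (by omega) (by omega)
    (Pool.Agent.Helper22.LB.inj_main 3 le_rfl) f (degreeLE_mono (by omega) hf) hid'

end Pool.Agent.Results.MP_a9fd20_al.ExactThree
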