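import Mathlib
import Pool.Agent.Helper49.SL.Reduct4
import Pool.Agent.Helper49.SL.FreeLie
import Pool.Agent.Helper43.LN.FinalS

/-!
# A lower bound of slope greater than two for the degree of a Lie identity of `sl_n`

For every field `K` of characteristic `0` and every `n ≥ 10` the Lie algebra `sl_n(K)` has no Lie
identity of degree at most `2 n + n / 5` (`n / 5` rounded down). Hence the least degree `m_n` of a
Lie identity of `sl_n` is at least `2 n + 1 + n / 5`.
-/

namespace Pool.Agent.Results.MP_a9fd20_al.SlopeBound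

/-- `LieMonomial K d f`: the element `f` of the free Lie algebra on `x_0, x_1, …` is an iterated
bracket (in any arrangement) of exactly `d` generators. -/
inductive LieMonomial (K : Type*) [Field K] : ℕ → FreeLieAlgebra K ℕ → Prop
  | of (i : ℕ) : LieMonomial K 1 (FreeLieAlgebra.of K i)
  | bracket {p q : ℕ} {f g : FreeLieAlgebra K ℕ} :
      LieMonomial K p f → LieMonomial K q g → LieMonomial K (p + q) ⁅f, g⁆

/-- The Lie polynomials of degree at most `d`. -/
noncomputable def degreeLE (K : Type*) [Field K] (d : ℕ) : Submodule K (FreeLieAlgebra K ℕ) :=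
  Submodule.span K {f | ∃ e ≤ d, LieMonomial K e f}

/-- `f` is a Lie identity of the Lie algebra `L`: it is nonzero and it vanishes under every
substitution of elements of `L` for the generators. -/
def IsLieIdentity (K : Type*) [Field K] (L : Type*) [LieRing L] [LieAlgebra K L]
    (f : FreeLieAlgebra K ℕ) : Prop :=
  f ≠ 0 ∧ ∀ v : ℕ → L, FreeLieAlgebra.lift K v f = 0

/-- The least degree `m_n` of a Lie identity of `sl_n(K)`. -/
noncomputable def minDegree (K : Type*) [Field K] (n : ℕ) : ℕ :=
  sInf {d | ∃ f ∈ degreeLE K d, IsLieIdentity K (LieAlgebra.SpecialLinear.sl (Fin n) K) f}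

section Aux

open Finset Pool.Agent.Helper49.SL

variable {K : Type*} [Field K]

attribute [local instance 100] LieRing.ofAssociativeRing

theorem mono_ne {e : ℕ} {f : FreeLieAlgebra K ℕ} (h : LieMonomial K e f) : e ≠ 0 := by
  induction h with
  | of i => exact one_ne_zero
  | bracket _ _ h1 _ => omega

theorem mono_mem {e : ℕ} {f : FreeLieAlgebra K ℕ} (h : LieMonomial K e f) :
    f ∈ RN K (FreeLieAlgebra.of K) e := by
  induction h with
  | of i => exact Submodule.subset_span ⟨[i], rfl, rfl⟩
  | bracket h1 h2 ih1 ih2 => exact RN_lie _ (mono_ne h1) (mono_ne h2) ih1 ih2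

theorem degreeLE_le (d : ℕ) : degreeLE K d ≤ ⨆ r, MM K d r := by
  refine Submodule.span_le.mpr ?_
  rintro f ⟨e, he, hf⟩
  exact RN_le d e he (mono_mem hf)

theorem lower [CharZero K] {n k : ℕ} (hn : n ≠ 0) (hk : k ≠ 0)
    (hI : Inj K (Matrix (Fin n) (Fin n) K) k)
    (f : FreeLieAlgebra K ℕ) (hf : f ∈ degreeLE K (k + 1))
    (h : IsLieIdentity K (LieAlgebra.SpecialLinear.sl (Fin n) K) f) : False := by
  refine h.1 (eq_zero_of_inj (k + 1) (fun j hj => ?_) (degreeLE_le _ hf) h.2)
  obtain ⟨k, rfl⟩ := Nat.exists_eq_succ_of_ne_zero hk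
  exact inj_le (Nat.lt_succ_iff.mp hj) (inj_sl hn k hI)

theorem degreeLE_mono {d d' : ℕ} (h : d ≤ d') : degreeLE K d ≤ degreeLE K d' :=
  Submodule.span_mono fun _ hf => by
    obtain ⟨e, he, hf⟩ := hf
    exact ⟨e, he.trans h, hf⟩

theorem some_identity [CharZero K] {n : ℕ} (hn : 3 ≤ n) :
    ∃ d, ∃ f ∈ degreeLE K d, IsLieIdentity K (LieAlgebra.SpecialLinear.sl (Fin n) K) f := by
  obtain ⟨k, rfl⟩ : ∃ k, n = k + 3 := ⟨n - 3, by omega⟩
  have htop : ∀ f : FreeLieAlgebra K ℕ, ∃ d, f ∈ degreeLE K d := by
    intro f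
    have h1 : ∀ {e : ℕ} {g : FreeLieAlgebra K ℕ}, LieMonomial K e g → g ∈ degreeLE K e :=
      fun {e} {g} hg => Submodule.subset_span ⟨e, le_rfl, hg⟩
    let S : LieSubalgebra K (FreeLieAlgebra K ℕ) :=
      { carrier := {g | ∃ d, g ∈ degreeLE K d}
        add_mem' := by
          rintro a b ⟨d, hd⟩ ⟨d', hd'⟩
          exact ⟨max d d', Submodule.add_mem _ (degreeLE_mono (le_max_left _ _) hd)
            (degreeLE_mono (le_max_right _ _) hd')⟩
        zero_mem' := ⟨0, Submodule.zero_mem _⟩
        smul_mem' := by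
          rintro c a ⟨d, hd⟩
          exact ⟨d, Submodule.smul_mem _ _ hd⟩
        lie_mem' := by
          rintro a b ⟨d, hd⟩ ⟨d', hd'⟩
          refine ⟨d + d', ?_⟩
          induction hd using Submodule.span_induction with
          | mem a ha =>
            obtain ⟨e, he, ha⟩ := ha
            induction hd' using Submodule.span_induction with
            | mem b hb =>
              obtain ⟨e', he', hb⟩ := hb
              exact Submodule.subset_span ⟨e + e', by omega, LieMonomial.bracket ha hb⟩
            | zero => rw [lie_zero]; exact Submodule.zero_mem _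
            | add x y _ _ hx hy => rw [lie_add]; exact Submodule.add_mem _ hx hy
            | smul c x _ hx => rw [lie_smul]; exact Submodule.smul_mem _ c hx
          | zero => rw [zero_lie]; exact Submodule.zero_mem _
          | add x y _ _ hx hy => rw [add_lie]; exact Submodule.add_mem _ hx hy
          | smul c x _ hx => rw [smul_lie]; exact Submodule.smul_mem _ c hx }
    let φ : FreeLieAlgebra K ℕ →ₗ⁅K⁆ S := FreeLieAlgebra.lift K
      fun i => (⟨FreeLieAlgebra.of K i, 1, h1 (LieMonomial.of i)⟩ : S)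
    have h2 : S.incl.comp φ = LieHom.id := by
      refine FreeLieAlgebra.hom_ext fun i => ?_
      show ((φ (FreeLieAlgebra.of K i) : S) : FreeLieAlgebra K ℕ) = FreeLieAlgebra.of K i
      simp only [φ, FreeLieAlgebra.lift_of_apply]
    have h3 : ((φ f : S) : FreeLieAlgebra K ℕ) = f := congrArg (fun ψ => ψ f) h2
    rw [← h3]
    exact (φ f).2
  obtain ⟨d, hd⟩ := htop (Pool.Agent.Helper49.SL.ff K k)
  exact ⟨d, _, hd, Pool.Agent.Helper49.SL.ff_ne_zero k, fun v =>
    Pool.Agent.Helper49.SL.lift_ff_sl k (by simp) v⟩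

end Aux

/-- Let `K` be a field of characteristic `0` and let `n ≥ 10`. Then no nonzero Lie polynomial of
degree at most `2 n + n / 5` vanishes on `sl_n(K)`, that is `m_n ≥ 2 n + 1 + n / 5`, where `n / 5`
is rounded down. -/
theorem result (K : Type*) [Field K] [CharZero K] (n : ℕ) (hn : 10 ≤ n) :
    2 * n + 1 + n / 5 ≤ minDegree K n := by
  by_contra hlt
  have hmem : minDegree K n ∈ {d | ∃ f ∈ degreeLE K d,
      IsLieIdentity K (LieAlgebra.SpecialLinear.sl (Fin n) K) f} :=
    Nat.sInf_mem (some_identity (by omega))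
  obtain ⟨f, hf, hid⟩ := hmem
  exact lower (k := 2 * n + (1 + n / 5) - 2) (by omega) (by omega)
    (Pool.Agent.Helper43.LN.inj_lowS n (1 + n / 5) (by omega) (by omega)) f
    (degreeLE_mono (by omega) hf) hid

end Pool.Agent.Results.MP_a9fd20_al.SlopeBound
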