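import Mathlib
import Pool.Agent.Helper49.SL.FreeLie

/-!
# Lie identities of `sl_n` of degree `4 n - 4`

For every field `K` of characteristic `0` and every `n ≥ 3` the Lie algebra `sl_n(K)` satisfies a
Lie identity which is homogeneous of degree `4 n - 4`. Hence the least degree `m_n` of a Lie
identity of `sl_n` is at most `4 n - 4`.

The identity has `4 n - 6` alternating variables `x` and is quadratic in a further variable `y`: it
is a combination of the alternating sums of the commutators
`⁅ad x ⋯ ad x y, ad x ⋯ ad x y⁆`. Its vanishing is derived from the first and second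
polarisations of the theorem of Amitsur and Levitzki in the form of Rosset.
-/

namespace Pool.Agent.Results.MP_a9fd20_al.UpperBound

/-- `LieMonomial K d f`: the element `f` of the free Lie algebra on `x_0, x_1, …` is an iterated
bracket (in any arrangement) of exactly `d` generators. -/
inductive LieMonomial (K : Type*) [Field K] : ℕ → FreeLieAlgebra K ℕ → Prop
  | of (i : ℕ) : LieMonomial K 1 (FreeLieAlgebra.of K i)
  | bracket {p q : ℕ} {f g : FreeLieAlgebra K ℕ} :
      LieMonomial K p f → LieMonomial K q g → LieMonomial K (p + q) ⁅f, g⁆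

/-- The Lie polynomials that are homogeneous of degree `d`. -/
noncomputable def homogeneous (K : Type*) [Field K] (d : ℕ) : Submodule K (FreeLieAlgebra K ℕ) :=
  Submodule.span K {f | LieMonomial K d f}

/-- The Lie polynomials of degree at most `d`. -/
noncomputable def degreeLE (K : Type*) [Field K] (d : ℕ) : Submodule K (FreeLieAlgebra K ℕ) :=
  Submodule.span K {f | ∃ e ≤ d, LieMonomial K e f}

/-- `f` is a Lie identity of the Lie algebra `L`: it is nonzero and it vanishes under every
substitution of elements of `L` for the generators. -/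
def IsLieIdentity (K : Type*) [Field K] (L : Type*) [LieRing L] [LieAlgebra K L]
    (f : FreeLieAlgebra K ℕ) : Prop :=
  f ≠ 0 ∧ ∀ v : ℕ → L, FreeLieAlgebra.lift K v f = 0

/-- The least degree `m_n` of a Lie identity of `sl_n(K)`. -/
noncomputable def minDegree (K : Type*) [Field K] (n : ℕ) : ℕ :=
  sInf {d | ∃ f ∈ degreeLE K d, IsLieIdentity K (LieAlgebra.SpecialLinear.sl (Fin n) K) f}

section Aux

open Finset Pool.Agent.Helper49.SL

variable {K : Type*} [Field K]

theorem adL_mono {N : ℕ} (x : Fin N → ℕ) (y : ℕ) (l : List (Fin N)) :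
    LieMonomial K (l.length + 1) (adL (fun i => FreeLieAlgebra.of K (x i)) (FreeLieAlgebra.of K y) l) := by
  induction l with
  | nil => exact LieMonomial.of y
  | cons i l ih =>
    have h := LieMonomial.bracket (LieMonomial.of (K := K) (x i)) ih
    rw [List.length_cons, show l.length + 1 + 1 = 1 + (l.length + 1) by ring]
    exact h

theorem comb_mem {V : Type*} [AddCommGroup V] [Module K V] (S : Submodule K V) (k : ℕ) (f : ℕ → V)
    (h : ∀ p, p ≤ 4 * k + 6 → f p ∈ S) : comb k f ∈ S := by
  have hz : ∀ (c : ℤ) (v : V), v ∈ S → c • v ∈ S := fun c v hv => by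
    rw [← Int.cast_smul_eq_zsmul K]; exact S.smul_mem _ hv
  rw [comb]
  refine S.add_mem (S.sub_mem (S.neg_mem ?_) ?_) ?_
  · refine hz _ _ (S.sum_mem fun p hp => hz _ _ (h _ ?_))
    have : p.1 + p.2 = 2 * (k + 1) := by simpa using hp
    omega
  · refine hz _ _ (S.sum_mem fun p hp => hz _ _ (h _ ?_))
    have : p.1 + p.2 = 2 * (k + 1) + 1 := by simpa using hp
    omega
  · refine hz _ _ (S.sum_mem fun p hp => hz _ _ (h _ ?_))
    have : p.1 + p.2 = 2 * (k + 1) := by simpa using hp
    omega

theorem ff_mem (k : ℕ) : ff K k ∈ homogeneous K (4 * k + 8) := by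
  rw [ff, ffL]
  refine Submodule.sum_mem _ fun σ _ => ?_
  rw [← Int.cast_smul_eq_zsmul K]
  refine Submodule.smul_mem _ _ (comb_mem _ k _ fun p hp => Submodule.subset_span ?_)
  have h := LieMonomial.bracket (adL_mono (K := K) (fun i : Fin (4 * k + 6) => (i : ℕ)) (4 * k + 6)
    ((List.ofFn σ).take p)) (adL_mono (K := K) (fun i : Fin (4 * k + 6) => (i : ℕ)) (4 * k + 6)
    ((List.ofFn σ).drop p))
  have hl : (List.ofFn σ).length = 4 * k + 6 := List.length_ofFn
  have e : ((List.ofFn σ).take p).length + 1 + (((List.ofFn σ).drop p).length + 1) = 4 * k + 8 := by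
    rw [List.length_take, List.length_drop, hl, min_eq_left hp]
    omega
  rw [e] at h
  exact h

end Aux

/-- Let `K` be a field of characteristic `0` and let `n ≥ 3`. Then `sl_n(K)` satisfies a Lie
identity that is homogeneous of degree `4 n - 4`; in particular `m_n ≤ 4 n - 4`. -/
theorem result (K : Type*) [Field K] [CharZero K] (n : ℕ) (hn : 3 ≤ n) :
    (∃ f ∈ homogeneous K (4 * n - 4),
      IsLieIdentity K (LieAlgebra.SpecialLinear.sl (Fin n) K) f) ∧
    minDegree K n ≤ 4 * n - 4 := by
  obtain ⟨k, rfl⟩ : ∃ k, n = k + 3 := ⟨n - 3, by omega⟩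
  have e : 4 * (k + 3) - 4 = 4 * k + 8 := by omega
  rw [e]
  have hid : IsLieIdentity K (LieAlgebra.SpecialLinear.sl (Fin (k + 3)) K)
      (Pool.Agent.Helper49.SL.ff K k) :=
    ⟨Pool.Agent.Helper49.SL.ff_ne_zero k, fun v =>
      Pool.Agent.Helper49.SL.lift_ff_sl k (by simp) v⟩
  have hsub : {f : FreeLieAlgebra K ℕ | LieMonomial K (4 * k + 8) f} ⊆
      {f : FreeLieAlgebra K ℕ | ∃ e ≤ 4 * k + 8, LieMonomial K e f} := by
    intro f hf
    exact ⟨4 * k + 8, le_rfl, hf⟩
  have hle : Pool.Agent.Helper49.SL.ff K k ∈ degreeLE K (4 * k + 8) :=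
    Submodule.span_mono hsub (ff_mem k)
  exact ⟨⟨_, ff_mem k, hid⟩, Nat.sInf_le ⟨_, hle, hid⟩⟩

end Pool.Agent.Results.MP_a9fd20_al.UpperBound
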